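import Pool.Agent.H74.CommAct

namespace Pool.Agent.Results.MP_f786e3_al.NoRelT

open Topology Filter OnePoint Pool.Agent.H74.CommAct Matrix

/-- Thompson's group `T`: homeomorphisms of the real projective line that, outside a finite set of
points of `ℚ ∪ {∞}`, locally agree with Moebius maps given by elements of `SL₂(ℤ)`. -/
def ThompsonT : Set (OnePoint ℝ ≃ₜ OnePoint ℝ) :=
  {f | ∃ B : Finset (OnePoint ℝ), (∀ b ∈ B, b = ∞ ∨ ∃ q : ℚ, b = ((q : ℝ) : OnePoint ℝ)) ∧
    ∀ x, x ∉ B → ∃ A : SpecialLinearGroup (Fin 2) ℤ,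
      ∀ᶠ y in 𝓝 x, f y = SpecialLinearGroup.mapGL ℝ A • y}

/-- The map `s` on the real line. -/
noncomputable def sFun (t : ℝ) : ℝ :=
  if t ≤ 0 then t else if t ≤ 1 then 2 * t / (1 + t) else if t ≤ 2 then 2 / (3 - t) else t

abbrev Hom := OnePoint ℝ ≃ₜ OnePoint ℝ

def rel : Setoid (OnePoint ℝ × (OnePoint ℝ → OnePoint ℝ)) where
  r p q := p.1 = q.1 ∧ ∃ m : GL (Fin 2) ℝ, ∀ᶠ y in 𝓝 p.1, q.2 y = m • p.2 y
  iseqv :=
    { refl := fun p => ⟨rfl, 1, by simp⟩
      symm := by
        rintro p q ⟨h, m, hm⟩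
        refine ⟨h.symm, m⁻¹, ?_⟩
        rw [← h]
        filter_upwards [hm] with y hy
        rw [hy, inv_smul_smul]
      trans := by
        rintro p q r ⟨h, m, hm⟩ ⟨h', m', hm'⟩
        refine ⟨h.trans h', m' * m, ?_⟩
        rw [← h] at hm'
        filter_upwards [hm, hm'] with y hy hy'
        rw [hy', hy, mul_smul] }

def Y := Quotient rel

def smulY (g : Hom) : Y → Y :=
  Quotient.map (fun p => (g p.1, p.2 ∘ g.symm)) (by
    rintro p q ⟨h, m, hm⟩
    refine ⟨congrArg g h, m, ?_⟩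
    have : Tendsto g.symm (𝓝 (g p.1)) (𝓝 p.1) := by
      have := g.symm.continuous.tendsto (g p.1)
      rwa [g.symm_apply_apply] at this
    exact this.eventually hm)

instance : MulAction Hom Y where
  smul := smulY
  one_smul y := by
    induction y using Quotient.inductionOn
    rfl
  mul_smul g h y := by
    induction y using Quotient.inductionOn
    rfl

def mk (x : OnePoint ℝ) (h : OnePoint ℝ → OnePoint ℝ) : Y := Quotient.mk rel (x, h)

lemma smul_mk (g : Hom) (x : OnePoint ℝ) (h : OnePoint ℝ → OnePoint ℝ) :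
    g • mk x h = mk (g x) (h ∘ g.symm) := rfl

def base : Y → OnePoint ℝ := Quotient.lift (fun p => p.1) (fun _ _ h => h.1)

lemma base_smul (g : Hom) (y : Y) : base (g • y) = g (base y) := by
  induction y using Quotient.inductionOn
  rfl

def M : Set Y := Set.range fun x => mk x id

def Loc (g : OnePoint ℝ → OnePoint ℝ) (x : OnePoint ℝ) : Prop :=
  ∃ m : GL (Fin 2) ℝ, ∀ᶠ y in 𝓝 x, g y = m • y

lemma mk_mem (x : OnePoint ℝ) (h : OnePoint ℝ → OnePoint ℝ) : mk x h ∈ M ↔ Loc h x := by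
  constructor
  · rintro ⟨x', hx'⟩
    obtain ⟨h1, m, hm⟩ := Quotient.exact hx'
    have h1' : x' = x := h1
    subst h1'
    exact ⟨m, hm⟩
  · rintro ⟨m, hm⟩
    exact ⟨x, Quotient.sound ⟨rfl, m, hm⟩⟩

lemma loc_symm {g : Hom} {x : OnePoint ℝ} (h : Loc g x) : Loc g.symm (g x) := by
  obtain ⟨m, hm⟩ := h
  refine ⟨m⁻¹, ?_⟩
  have : Tendsto g.symm (𝓝 (g x)) (𝓝 x) := by
    have := g.symm.continuous.tendsto (g x)
    rwa [g.symm_apply_apply] at this
  filter_upwards [this.eventually hm] with y hy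
  rw [g.apply_symm_apply] at hy
  conv_rhs => rw [hy]
  rw [inv_smul_smul]

lemma mem_comm {g : Hom} (B : Finset (OnePoint ℝ)) (h : ∀ x, x ∉ B → Loc g x) :
    g ∈ comm Hom M := by
  refine ((B.finite_toSet.image fun x => mk (g x) id).union
    (B.finite_toSet.image fun x => g • mk x id)).subset ?_
  intro y hy
  by_cases hM : y ∈ M
  · left
    obtain ⟨x, rfl⟩ := hM
    refine ⟨g.symm x, ?_, by simp⟩
    by_contra hB
    apply hy
    refine iff_of_true ?_ ⟨x, rfl⟩
    exact (mk_mem _ _).2 (h _ hB)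
  · right
    have h1 : g⁻¹ • y ∈ M := by
      by_contra h1
      exact hy (iff_of_false h1 hM)
    obtain ⟨x, hx⟩ := h1
    have hx' : mk x id = g⁻¹ • y := hx
    refine ⟨x, ?_, by simp [hx']⟩
    by_contra hB
    apply hM
    have : y = g • mk x id := by simp [hx']
    rw [this, smul_mk, mk_mem]
    exact loc_symm (h _ hB)

noncomputable def homOf (f : ℝ → ℝ) (hf : StrictMono f) (g : ℝ → ℝ)
    (hg : Function.RightInverse g f) : Hom :=
  (hf.orderIsoOfRightInverse f g hg).toHomeomorph.onePointCongr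

lemma homOf_coe (f : ℝ → ℝ) (hf : StrictMono f) (g : ℝ → ℝ) (hg : Function.RightInverse g f)
    (t : ℝ) : homOf f hf g hg (t : OnePoint ℝ) = ((f t : ℝ) : OnePoint ℝ) := rfl

lemma homOf_infty (f : ℝ → ℝ) (hf : StrictMono f) (g : ℝ → ℝ) (hg : Function.RightInverse g f) :
    homOf f hf g hg ∞ = ∞ := rfl

lemma ev_smul (F : OnePoint ℝ → OnePoint ℝ) (f : ℝ → ℝ) (hF : ∀ t : ℝ, F t = ((f t : ℝ) : OnePoint ℝ))
    (m : GL (Fin 2) ℝ) (x : ℝ)
    (h : ∀ᶠ t in 𝓝 x, m 1 0 * t + m 1 1 ≠ 0 ∧ f t = (m 0 0 * t + m 0 1) / (m 1 0 * t + m 1 1)) :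
    ∀ᶠ y in 𝓝 (x : OnePoint ℝ), F y = m • y := by
  rw [OnePoint.nhds_coe_eq, eventually_map]
  filter_upwards [h] with t ht
  rw [hF, OnePoint.smul_some_eq_ite, if_neg ht.1, ht.2]

lemma sFun_mono : StrictMono sFun := by
  intro a b hab
  unfold sFun
  split_ifs with h1 h2 h3 h4 h5 h6 h7 h8 h9 h10 h11 h12 h13 h14 h15
  all_goals (try push Not at *)
  all_goals first
    | linarith
    | (rw [div_lt_div_iff₀ (by linarith) (by linarith)]; nlinarith)
    | (rw [lt_div_iff₀ (by linarith)]; nlinarith)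
    | (rw [div_lt_iff₀ (by linarith)]; nlinarith)

noncomputable def sInv (u : ℝ) : ℝ :=
  if u ≤ 0 then u else if u ≤ 1 then u / (2 - u) else if u ≤ 2 then 3 - 2 / u else u

lemma sInv_right : Function.RightInverse sInv sFun := by
  intro u
  unfold sInv
  split_ifs with h1 h2 h3
  · simp [sFun, h1]
  · push Not at h1
    have h3 : 0 < 2 - u := by linarith
    have h4 : ¬ u / (2 - u) ≤ 0 := not_le.2 (div_pos h1 h3)
    have h5 : u / (2 - u) ≤ 1 := by rw [div_le_iff₀ h3]; linarith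
    simp only [sFun, h4, h5, if_false, if_true]
    field_simp
    ring
  · push Not at h1 h2
    have h4 : 2 / u < 2 := by rw [div_lt_iff₀ h1]; linarith
    have h5 : 1 ≤ 2 / u := by rw [le_div_iff₀ h1]; linarith
    have h6 : ¬ 3 - 2 / u ≤ 0 := by linarith
    have h7 : ¬ 3 - 2 / u ≤ 1 := by linarith
    have h8 : 3 - 2 / u ≤ 2 := by linarith
    simp only [sFun, h6, h7, h8, if_false, if_true]
    field_simp
    ring
  · simp [sFun, h1, h2, h3]

noncomputable def s : Hom := homOf sFun sFun_mono sInv sInv_right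

noncomputable def gl (a b c d : ℝ) (h : a * d - b * c ≠ 0) : GL (Fin 2) ℝ :=
  GeneralLinearGroup.mkOfDetNeZero !![a, b; c, d] (by rwa [det_fin_two_of])

lemma s_mem : s ∈ comm Hom M := by
  classical
  refine mem_comm {∞, ((0 : ℝ) : OnePoint ℝ), ((1 : ℝ) : OnePoint ℝ), ((2 : ℝ) : OnePoint ℝ)} ?_
  intro x hx
  induction x using OnePoint.rec with
  | infty => simp at hx
  | coe x =>
    simp only [Finset.mem_insert, Finset.mem_singleton, coe_ne_infty, coe_eq_coe, false_or,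
      not_or] at hx
    obtain ⟨h0, h1, h2⟩ := hx
    rcases lt_or_gt_of_ne h0 with h0 | h0
    · refine ⟨1, ev_smul s sFun (fun _ => rfl) 1 x ?_⟩
      filter_upwards [Iio_mem_nhds h0] with t ht
      have ht' : t ≤ 0 := le_of_lt ht
      simp [sFun, ht']
    rcases lt_or_gt_of_ne h1 with h1 | h1
    · refine ⟨gl 2 0 1 1 (by norm_num), ev_smul s sFun (fun _ => rfl) _ x ?_⟩
      filter_upwards [Ioo_mem_nhds h0 h1] with t ht
      have h3 : ¬ t ≤ 0 := not_le.2 ht.1
      have h4 : t ≤ 1 := ht.2.le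
      have h5 : t + 1 ≠ 0 := by linarith [ht.1]
      simp [sFun, gl, h3, h4, h5, add_comm]
    rcases lt_or_gt_of_ne h2 with h2 | h2
    · refine ⟨gl 0 2 (-1) 3 (by norm_num), ev_smul s sFun (fun _ => rfl) _ x ?_⟩
      filter_upwards [Ioo_mem_nhds h1 h2] with t ht
      have h3 : ¬ t ≤ 0 := by linarith [ht.1]
      have h4 : ¬ t ≤ 1 := not_le.2 ht.1
      have h5 : t ≤ 2 := ht.2.le
      have h6 : -t + 3 ≠ 0 := by linarith [ht.2]
      simp [sFun, gl, h3, h4, h5, h6, sub_eq_neg_add]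
    · refine ⟨1, ev_smul s sFun (fun _ => rfl) 1 x ?_⟩
      filter_upwards [Ioi_mem_nhds h2] with t ht
      have ht' : 2 < t := ht
      have h3 : ¬ t ≤ 0 := by linarith
      have h4 : ¬ t ≤ 1 := by linarith
      have h5 : ¬ t ≤ 2 := by linarith
      simp [sFun, h3, h4, h5]

noncomputable def cFun (t : ℝ) : ℝ :=
  if t ≤ 0 then t else if t ≤ 1 / 2 then t / (1 - t) else if t ≤ 1 then (3 * t - 1) / t else t + 1

lemma cFun_mono : StrictMono cFun := by
  intro a b hab
  unfold cFun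
  split_ifs with h1 h2 h3 h4 h5 h6 h7 h8 h9 h10 h11 h12 h13 h14 h15
  all_goals (try push Not at *)
  all_goals first
    | linarith
    | (rw [div_lt_div_iff₀ (by linarith) (by linarith)]; nlinarith)
    | (rw [lt_div_iff₀ (by linarith)]; nlinarith)
    | (rw [div_lt_iff₀ (by linarith)]; nlinarith)

noncomputable def cInv (u : ℝ) : ℝ :=
  if u ≤ 0 then u else if u ≤ 1 then u / (1 + u) else if u ≤ 2 then 1 / (3 - u) else u - 1

lemma cInv_right : Function.RightInverse cInv cFun := by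
  intro u
  unfold cInv
  split_ifs with h1 h2 h3
  · simp [cFun, h1]
  · push Not at h1
    have h3 : 0 < 1 + u := by linarith
    have h4 : ¬ u / (1 + u) ≤ 0 := not_le.2 (div_pos h1 h3)
    have h5 : u / (1 + u) ≤ 1 / 2 := by rw [div_le_iff₀ h3]; linarith
    simp only [cFun, h4, h5, if_false, if_true]
    field_simp
    ring
  · push Not at h1 h2
    have h4 : 0 < 3 - u := by linarith
    have h6 : ¬ 1 / (3 - u) ≤ 0 := not_le.2 (div_pos one_pos h4)
    have h7 : ¬ 1 / (3 - u) ≤ 1 / 2 := by rw [not_le, lt_div_iff₀ h4]; linarith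
    have h8 : 1 / (3 - u) ≤ 1 := by rw [div_le_iff₀ h4]; linarith
    simp only [cFun, h6, h7, h8, if_false, if_true]
    field_simp
    ring
  · push Not at h1 h2 h3
    have h6 : ¬ u - 1 ≤ 0 := by linarith
    have h7 : ¬ u - 1 ≤ 1 / 2 := by linarith
    have h8 : ¬ u - 1 ≤ 1 := by linarith
    simp only [cFun, h6, h7, h8, if_false]
    ring

noncomputable def c : Hom := homOf cFun cFun_mono cInv cInv_right

def sl (a b c d : ℤ) (h : a * d - b * c = 1) : SpecialLinearGroup (Fin 2) ℤ :=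
  ⟨!![a, b; c, d], by rwa [det_fin_two_of]⟩

lemma c_mem : c ∈ ThompsonT := by
  classical
  refine ⟨{∞, ((0 : ℝ) : OnePoint ℝ), ((1 / 2 : ℝ) : OnePoint ℝ), ((1 : ℝ) : OnePoint ℝ)}, ?_, ?_⟩
  · intro b hb
    simp only [Finset.mem_insert, Finset.mem_singleton] at hb
    rcases hb with rfl | rfl | rfl | rfl
    · exact Or.inl rfl
    · exact Or.inr ⟨0, by simp⟩
    · exact Or.inr ⟨1 / 2, by simp⟩
    · exact Or.inr ⟨1, by simp⟩
  intro x hx
  induction x using OnePoint.rec with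
  | infty => simp at hx
  | coe x =>
    simp only [Finset.mem_insert, Finset.mem_singleton, coe_ne_infty, coe_eq_coe, false_or,
      not_or] at hx
    obtain ⟨h0, h1, h2⟩ := hx
    rcases lt_or_gt_of_ne h0 with h0 | h0
    · refine ⟨1, ev_smul c cFun (fun _ => rfl) _ x ?_⟩
      filter_upwards [Iio_mem_nhds h0] with t ht
      have ht' : t ≤ 0 := le_of_lt ht
      simp [cFun, ht']
    rcases lt_or_gt_of_ne h1 with h1 | h1
    · refine ⟨sl 1 0 (-1) 1 (by norm_num), ev_smul c cFun (fun _ => rfl) _ x ?_⟩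
      filter_upwards [Ioo_mem_nhds h0 h1] with t ht
      have h3 : ¬ t ≤ 0 := not_le.2 ht.1
      have h4 : t ≤ 2⁻¹ := by linarith [ht.2]
      have h5 : -t + 1 ≠ 0 := by linarith [ht.2]
      simp [cFun, sl, h3, h4, h5, sub_eq_neg_add]
    rcases lt_or_gt_of_ne h2 with h2 | h2
    · refine ⟨sl 3 (-1) 1 0 (by norm_num), ev_smul c cFun (fun _ => rfl) _ x ?_⟩
      filter_upwards [Ioo_mem_nhds h1 h2] with t ht
      have h3 : ¬ t ≤ 0 := by linarith [ht.1]
      have h4 : ¬ t ≤ 2⁻¹ := by linarith [ht.1]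
      have h5 : t ≤ 1 := ht.2.le
      have h6 : t ≠ 0 := by linarith [ht.1]
      simp [cFun, sl, h3, h4, h5, h6, sub_eq_add_neg]
    · refine ⟨sl 1 1 0 1 (by norm_num), ev_smul c cFun (fun _ => rfl) _ x ?_⟩
      filter_upwards [Ioi_mem_nhds h2] with t ht
      have ht' : 1 < t := ht
      have h3 : ¬ t ≤ 0 := by linarith
      have h4 : ¬ t ≤ 2⁻¹ := by linarith
      have h5 : ¬ t ≤ 1 := by linarith
      simp [cFun, sl, h3, h4, h5]

lemma c_not_loc : ¬ Loc c ((0 : ℝ) : OnePoint ℝ) := by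
  rintro ⟨m, hm⟩
  rw [OnePoint.nhds_coe_eq, eventually_map] at hm
  obtain ⟨ε, hε, hb⟩ := Metric.eventually_nhds_iff.1 hm
  have key : ∀ t : ℝ, |t| < ε → cFun t * (m 1 0 * t + m 1 1) = m 0 0 * t + m 0 1 ∧
      m 1 0 * t + m 1 1 ≠ 0 := by
    intro t ht
    have h1 := hb (y := t) (by simpa [Real.dist_eq] using ht)
    rw [OnePoint.smul_some_eq_ite] at h1
    split_ifs at h1 with h2
    · exact absurd h1 (coe_ne_infty _)
    · have h3 : cFun t = (m 0 0 * t + m 0 1) / (m 1 0 * t + m 1 1) := coe_eq_coe.1 h1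
      exact ⟨by rw [h3, div_mul_cancel₀ _ h2], h2⟩
  set δ := min (ε / 3) (1 / 4) with hδ
  have hδ0 : 0 < δ := lt_min (by linarith) (by norm_num)
  have hδ1 : δ ≤ ε / 3 := min_le_left _ _
  have hδ2 : δ ≤ 1 / 4 := min_le_right _ _
  have k0 := key 0 (by simpa using hε)
  have k1 := key (-δ) (by rw [abs_neg, abs_of_pos hδ0]; linarith)
  have k2 := key (-(2 * δ)) (by rw [abs_neg, abs_of_pos (by linarith)]; linarith)
  have k3 := key δ (by rw [abs_of_pos hδ0]; linarith)
  have e0 : cFun 0 = 0 := by simp [cFun]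
  have e1 : cFun (-δ) = -δ := by simp [cFun, hδ0.le]
  have e2 : cFun (-(2 * δ)) = -(2 * δ) := by simp [cFun, hδ0.le]
  have e3 : cFun δ = δ / (1 - δ) := by
    have h3 : ¬ δ ≤ 0 := not_le.2 hδ0
    have h4 : δ ≤ 1 / 2 := by linarith
    simp only [cFun, h3, h4, if_false, if_true]
  rw [e0] at k0
  rw [e1] at k1
  rw [e2] at k2
  rw [e3] at k3
  have hb0 : m 0 1 = 0 := by linarith [k0.1]
  have hd : m 1 1 ≠ 0 := by simpa using k0.2
  have hc0 : m 1 0 = 0 := by
    have : m 1 0 * (δ * δ) = 0 := by linarith [k1.1, k2.1]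
    rcases mul_eq_zero.1 this with h | h
    · exact h
    · exact absurd h (by positivity)
  have had : m 0 0 = m 1 1 := by
    have : (m 0 0 - m 1 1) * δ = 0 := by
      have := k1.1
      rw [hc0, hb0] at this
      linarith
    rcases mul_eq_zero.1 this with h | h
    · linarith
    · exact absurd h hδ0.ne'
  have h5 := k3.1
  rw [hc0, hb0, had] at h5
  have h6 : 1 - δ ≠ 0 := by linarith
  rw [zero_mul, zero_add, add_zero, div_mul_eq_mul_div, div_eq_iff h6] at h5
  have h7 : m 1 1 * (δ * δ) = 0 := by linarith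
  rcases mul_eq_zero.1 h7 with h | h
  · exact hd h
  · exact absurd h (by positivity)

noncomputable def a : Hom :=
  homOf (fun t => t + 1) (fun _ _ h => by simpa using h) (fun t => t - 1) (fun t => by simp)

lemma a_eq (y : OnePoint ℝ) :
    a y = SpecialLinearGroup.mapGL ℝ (sl 1 1 0 1 (by norm_num)) • y := by
  induction y using OnePoint.rec with
  | infty => rw [OnePoint.smul_infty_eq_ite]; simp [sl]; rfl
  | coe x => rw [OnePoint.smul_some_eq_ite]; simp [sl]; rfl

lemma a_mem : a ∈ ThompsonT :=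
  ⟨∅, by simp, fun _ _ => ⟨_, Eventually.of_forall a_eq⟩⟩

lemma a_pres (y : Y) : a⁻¹ • y ∈ M ↔ y ∈ M := by
  have h : ∀ x, Loc a x := fun x => ⟨_, Eventually.of_forall a_eq⟩
  constructor
  · rintro ⟨x, hx⟩
    have hx' : mk x id = a⁻¹ • y := hx
    have : y = a • mk x id := by simp [hx']
    rw [this, smul_mk, mk_mem]
    exact loc_symm (h _)
  · rintro ⟨x, rfl⟩
    exact (mk_mem _ _).2 (h _)

lemma T_mem {g : Hom} (hg : g ∈ ThompsonT) : g ∈ comm Hom M := by
  obtain ⟨B, -, hB⟩ := hg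
  exact mem_comm B fun x hx => (hB x hx).elim fun _ h => ⟨_, h⟩

/-- The group `S` generated by `T` and `s` has an affine isometric action on a real Hilbert space
in which `T` has no fixed point. -/
theorem result : ∃ s : OnePoint ℝ ≃ₜ OnePoint ℝ, s ∞ = ∞ ∧
    (∀ t : ℝ, s (t : OnePoint ℝ) = ((sFun t : ℝ) : OnePoint ℝ)) ∧
    ∃ (H : Type) (_ : NormedAddCommGroup H) (_ : InnerProductSpace ℝ H) (_ : CompleteSpace H)
      (α : Subgroup.closure (ThompsonT ∪ {s}) →* (H ≃ᵃⁱ[ℝ] H)),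
      ¬ ∃ v : H, ∀ g : Subgroup.closure (ThompsonT ∪ {s}), g.1 ∈ ThompsonT → α g v = v := by
  have hle : Subgroup.closure (ThompsonT ∪ {s}) ≤ comm Hom M := by
    rw [Subgroup.closure_le]
    rintro g (hg | rfl)
    · exact T_mem hg
    · exact s_mem
  refine ⟨s, rfl, fun _ => rfl, L2 Y, inferInstance, inferInstance, inferInstance,
    (act M).comp (Subgroup.inclusion hle), ?_⟩
  rintro ⟨v, hv⟩
  have ha : act M ⟨a, T_mem a_mem⟩ v = v :=
    hv ⟨a, Subgroup.subset_closure (Or.inl a_mem)⟩ a_mem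
  have hc : act M ⟨c, T_mem c_mem⟩ v = v :=
    hv ⟨c, Subgroup.subset_closure (Or.inl c_mem)⟩ c_mem
  have hva : ∀ y, (v : Y → ℝ) (a • y) = (v : Y → ℝ) y := by
    intro y
    have := act_apply M ⟨a, T_mem a_mem⟩ v (a • y)
    rw [ha] at this
    by_cases hy : a • y ∈ M
    · rw [if_pos hy, if_pos ((a_pres _).2 hy), sub_self, zero_add] at this
      simpa using this
    · rw [if_neg hy, if_neg (fun h => hy ((a_pres _).1 h)), sub_self, zero_add] at this
      simpa using this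
  have hzero : ∀ y : Y, base y = ((0 : ℝ) : OnePoint ℝ) → (v : Y → ℝ) y = 0 := by
    intro y hy
    have hb : ∀ n : ℕ, base (a ^ n • y) = ((n : ℝ) : OnePoint ℝ) := by
      intro n
      induction n with
      | zero => simpa using hy
      | succ n ih => rw [pow_succ', mul_smul, base_smul, ih, Nat.cast_succ]; rfl
    refine eq_zero_of_const v (fun n => a ^ n • y) ?_ _ ?_
    · intro n k h
      have := congrArg base h
      simp only [hb] at this
      exact_mod_cast coe_eq_coe.1 this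
    · intro n
      induction n with
      | zero => simp
      | succ n ih => rw [pow_succ', mul_smul, hva, ih]
  have hc0 : c ((0 : ℝ) : OnePoint ℝ) = ((0 : ℝ) : OnePoint ℝ) := by
    show ((cFun 0 : ℝ) : OnePoint ℝ) = _
    simp [cFun]
  have hc0' : c.symm ((0 : ℝ) : OnePoint ℝ) = ((0 : ℝ) : OnePoint ℝ) := by
    rw [Homeomorph.symm_apply_eq, hc0]
  have h1 := act_apply M ⟨c, T_mem c_mem⟩ v (mk ((0 : ℝ) : OnePoint ℝ) id)
  have h2 : c⁻¹ • mk ((0 : ℝ) : OnePoint ℝ) id = mk ((0 : ℝ) : OnePoint ℝ) c := by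
    show mk (c.symm _) _ = _
    rw [hc0']; rfl
  have h3 : mk ((0 : ℝ) : OnePoint ℝ) id ∈ M := ⟨_, rfl⟩
  have h4 : mk ((0 : ℝ) : OnePoint ℝ) c ∉ M := fun h => c_not_loc ((mk_mem _ _).1 h)
  rw [hc, if_neg (fun h => h4 (h2 ▸ h)), if_pos h3, hzero _ rfl,
    hzero _ (by rw [base_smul]; exact hc0')] at h1
  norm_num at h1

end Pool.Agent.Results.MP_f786e3_al.NoRelT
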